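import Mathlib

/-!
# Path-chromatic number of graphs without a `K_{t+1}`-minor

Every finite graph without a `K_{t+1}`-minor has a path-decomposition in which each bag contains a
vertex whose deletion from the bag leaves a graph without a `K_t`-minor.
-/

namespace Pool.Agent.Results.MP_8d69a1_co.SearchOrder

open SimpleGraph

/-- `G` has a `K_n`-minor: there are `n` pairwise disjoint (nonempty) connected vertex sets, any
two of them joined by an edge of `G`. -/
def HasCliqueMinor {V : Type} (G : SimpleGraph V) (n : ℕ) : Prop :=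
  ∃ f : Fin n → Set V,
    (∀ i, (G.induce (f i)).Connected) ∧
    (∀ i j, i ≠ j → Disjoint (f i) (f j)) ∧
    (∀ i j, i ≠ j → ∃ u ∈ f i, ∃ v ∈ f j, G.Adj u v)

/-- The sequence `B 0, ..., B (m - 1)` of vertex sets is a path-decomposition of `G`. -/
def IsPathDecomposition {V : Type} (G : SimpleGraph V) {m : ℕ} (B : Fin m → Set V) : Prop :=
  (∀ v : V, ∃ i, v ∈ B i) ∧
  (∀ u v : V, G.Adj u v → ∃ i, u ∈ B i ∧ v ∈ B i) ∧
  (∀ (v : V) (i j k : Fin m), i ≤ j → j ≤ k → v ∈ B i → v ∈ B k → v ∈ B j)

section aux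

variable {V : Type} (G : SimpleGraph V)

/-- The vertices outside `P` with a neighbour in `P`. -/
def Frontier (P : Set V) : Set V := {w | w ∉ P ∧ ∃ u ∈ P, G.Adj u w}

/-- Either the frontier of `P` is empty, or it is dominated by a connected subset of `P`. -/
def Good (P : Set V) : Prop :=
  Frontier G P = ∅ ∨ ∃ D ⊆ P, (G.induce D).Connected ∧ ∀ w ∈ Frontier G P, ∃ u ∈ D, G.Adj u w

variable {G}

theorem connected_image {S : Set V} {T : Set S} (h : ((G.induce S).induce T).Connected) :
    (G.induce (Subtype.val '' T)).Connected := by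
  let e : (G.induce S).induce T →g G.induce (Subtype.val '' T) :=
    { toFun := fun x => ⟨x.1.1, x.1, x.2, rfl⟩
      map_rel' := fun {a b} hab => by simpa using hab }
  apply h.map e
  rintro ⟨_, x, hx, rfl⟩
  exact ⟨⟨x, hx⟩, rfl⟩

theorem no_minor {t : ℕ} (ht : 1 ≤ t) (hG : ¬ HasCliqueMinor G (t + 1)) {P : Set V}
    (hP : Good G P) : ¬ HasCliqueMinor (G.induce (Frontier G P)) t := by
  rintro ⟨f, hf1, hf2, hf3⟩
  rcases hP with hP | ⟨D, hDP, hD, hdom⟩
  · obtain ⟨⟨w, -⟩⟩ := (hf1 ⟨0, ht⟩).nonempty
    exact (Set.mem_empty_iff_false _).mp (hP.subset w.2)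
  · apply hG
    have key : ∀ i : Fin t, ∃ u ∈ D, ∃ v ∈ Subtype.val '' f i, G.Adj u v := by
      intro i
      obtain ⟨⟨w, hw⟩⟩ := (hf1 i).nonempty
      obtain ⟨u, hu, huw⟩ := hdom w.1 w.2
      exact ⟨u, hu, w.1, ⟨w, hw, rfl⟩, huw⟩
    have hdisj : ∀ i : Fin t, Disjoint D (Subtype.val '' f i) := by
      intro i
      rw [Set.disjoint_left]
      rintro _ h1 ⟨w, -, rfl⟩
      exact w.2.1 (hDP h1)
    refine ⟨Fin.cons (α := fun _ => Set V) D (fun i => Subtype.val '' f i), ?_, ?_, ?_⟩
    · refine Fin.cases ?_ (fun i => ?_)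
      · rw [Fin.cons_zero]
        exact hD
      · rw [Fin.cons_succ]
        exact connected_image (hf1 i)
    · refine Fin.cases ?_ (fun i => ?_)
      · refine Fin.cases ?_ (fun j => ?_)
        · intro h; exact absurd rfl h
        · intro _
          rw [Fin.cons_zero, Fin.cons_succ]
          exact hdisj j
      · refine Fin.cases ?_ (fun j => ?_)
        · intro _
          rw [Fin.cons_zero, Fin.cons_succ]
          exact (hdisj i).symm
        · intro h
          rw [Fin.cons_succ, Fin.cons_succ]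
          have hij : i ≠ j := fun h' => h (by rw [h'])
          rw [Set.disjoint_image_iff Subtype.val_injective]
          exact hf2 i j hij
    · refine Fin.cases ?_ (fun i => ?_)
      · refine Fin.cases ?_ (fun j => ?_)
        · intro h; exact absurd rfl h
        · intro _
          rw [Fin.cons_zero, Fin.cons_succ]
          exact key j
      · refine Fin.cases ?_ (fun j => ?_)
        · intro _
          rw [Fin.cons_zero, Fin.cons_succ]
          obtain ⟨u, hu, v, hv, huv⟩ := key i
          exact ⟨v, hv, u, hu, huv.symm⟩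
        · intro h
          rw [Fin.cons_succ, Fin.cons_succ]
          have hij : i ≠ j := fun h' => h (by rw [h'])
          obtain ⟨u, hu, v, hv, huv⟩ := hf3 i j hij
          exact ⟨u.1, ⟨u, hu, rfl⟩, v.1, ⟨v, hv, rfl⟩, by simpa using huv⟩

/-- The next vertex of the search: it is taken in the frontier of `P` unless that is empty. -/
theorem exists_next {P : Set V} (hP : Good G P) (hne : P ≠ Set.univ) :
    ∃ v ∉ P, Good G (insert v P) ∧ Frontier G P ⊆ insert v (Frontier G (insert v P)) := by
  have hsub : ∀ v, Frontier G P ⊆ insert v (Frontier G (insert v P)) := by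
    intro v w hw
    by_cases hwv : w = v
    · exact Or.inl hwv
    · refine Or.inr ⟨?_, ?_⟩
      · rintro (h | h)
        · exact hwv h
        · exact hw.1 h
      · obtain ⟨u, hu, huw⟩ := hw.2
        exact ⟨u, Or.inr hu, huw⟩
  by_cases hF : (Frontier G P).Nonempty
  · obtain ⟨v, hv⟩ := hF
    refine ⟨v, hv.1, ?_, hsub v⟩
    rcases hP with hP | ⟨D, hDP, hD, hdom⟩
    · exact absurd hv (by rw [hP]; exact Set.notMem_empty v)
    · right
      obtain ⟨u, hu, huv⟩ := hdom v hv
      have hconn : (G.induce ({v} : Set V)).Connected := by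
        have : Subsingleton ({v} : Set V) := by infer_instance
        have : Nonempty ({v} : Set V) := ⟨⟨v, rfl⟩⟩
        exact ⟨fun a b => by rw [Subsingleton.elim a b]⟩
      refine ⟨D ∪ {v}, ?_, ?_, ?_⟩
      · rintro x (hx | hx)
        · exact Or.inr (hDP hx)
        · exact Or.inl hx
      · exact connected_induce_union hD.preconnected hconn.preconnected hu rfl huv
      · rintro w ⟨hw, u', hu', huw⟩
        rcases hu' with rfl | hu'
        · exact ⟨u', Or.inr rfl, huw⟩
        · obtain ⟨u'', h1, h2⟩ := hdom w ⟨fun h => hw (Or.inr h), u', hu', huw⟩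
          exact ⟨u'', Or.inl h1, h2⟩
  · obtain ⟨v, hv⟩ := (Set.ne_univ_iff_exists_notMem P).mp hne
    refine ⟨v, hv, Or.inr ⟨{v}, ?_, ?_, ?_⟩, hsub v⟩
    · rintro x rfl; exact Or.inl rfl
    · have : Subsingleton ({v} : Set V) := by infer_instance
      have : Nonempty ({v} : Set V) := ⟨⟨v, rfl⟩⟩
      exact ⟨fun a b => by rw [Subsingleton.elim a b]⟩
    · rintro w ⟨hw, u', hu', huw⟩
      rcases hu' with rfl | hu'
      · exact ⟨u', rfl, huw⟩
      · exact absurd ⟨w, fun h => hw (Or.inr h), u', hu', huw⟩ hF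

/-- The path-decomposition of the part of `G` outside the visited set `P`. -/
theorem main_induction [Finite V] {t : ℕ} (ht : 1 ≤ t) (hG : ¬ HasCliqueMinor G (t + 1)) :
    ∀ (n : ℕ) (P : Set V), Good G P → (Pᶜ).ncard = n →
    ∃ (m : ℕ) (B : Fin m → Set V) (x : Fin m → V),
      (∀ i, B i ⊆ Pᶜ) ∧
      (∀ v, v ∉ P → ∃ i, v ∈ B i) ∧
      (∀ u v : V, u ∉ P → v ∉ P → G.Adj u v → ∃ i, u ∈ B i ∧ v ∈ B i) ∧
      (∀ (v : V) (i j k : Fin m), i ≤ j → j ≤ k → v ∈ B i → v ∈ B k → v ∈ B j) ∧
      (∀ v ∈ Frontier G P, ∃ h : 0 < m, v ∈ B ⟨0, h⟩) ∧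
      (∀ i, x i ∈ B i ∧ ¬ HasCliqueMinor (G.induce (B i \ {x i})) t) := by
  intro n
  induction n with
  | zero =>
    intro P hP hcard
    have hPu : Pᶜ = ∅ := by
      rwa [Set.ncard_eq_zero (Set.toFinite _)] at hcard
    have hmem : ∀ v, v ∈ P := by
      intro v
      by_contra h
      have : v ∈ Pᶜ := h
      rw [hPu] at this
      exact this
    refine ⟨0, Fin.elim0, Fin.elim0, fun i => i.elim0, fun v hv => absurd (hmem v) hv,
      fun u _ hu => absurd (hmem u) hu, fun v i => i.elim0, ?_, fun i => i.elim0⟩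
    rintro v ⟨hv, -⟩
    exact absurd (hmem v) hv
  | succ n ih =>
    intro P hP hcard
    have hne : P ≠ Set.univ := by
      rintro rfl
      simp at hcard
    obtain ⟨v₀, hv₀, hgood, hsub⟩ := exists_next hP hne
    have hcard' : ((insert v₀ P)ᶜ).ncard = n := by
      have h1 : Pᶜ = insert v₀ ((insert v₀ P)ᶜ) := by
        ext w
        simp only [Set.mem_compl_iff, Set.mem_insert_iff, not_or]
        constructor
        · intro hw
          by_cases h : w = v₀
          · exact Or.inl h
          · exact Or.inr ⟨h, hw⟩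
        · rintro (rfl | h)
          · exact hv₀
          · exact h.2
      rw [h1, Set.ncard_insert_of_notMem (by simp) (Set.toFinite _)] at hcard
      omega
    obtain ⟨m, B, x, hB1, hB2, hB3, hB4, hB5, hB6⟩ := ih (insert v₀ P) hgood hcard'
    have hv₀F : v₀ ∉ Frontier G (insert v₀ P) := fun h => h.1 (Or.inl rfl)
    have hv₀B : ∀ i, v₀ ∉ B i := fun i h => hB1 i h (Or.inl rfl)
    refine ⟨m + 1, Fin.cons (α := fun _ => Set V) (insert v₀ (Frontier G (insert v₀ P))) B,
      Fin.cons (α := fun _ => V) v₀ x, ?_, ?_, ?_, ?_, ?_, ?_⟩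
    · refine Fin.cases ?_ (fun i => ?_)
      · rw [Fin.cons_zero]
        rintro w (rfl | hw)
        · exact hv₀
        · exact fun h => hw.1 (Or.inr h)
      · rw [Fin.cons_succ]
        exact fun w hw h => hB1 i hw (Or.inr h)
    · intro v hv
      by_cases h : v = v₀
      · exact ⟨0, by rw [Fin.cons_zero]; exact Or.inl h⟩
      · obtain ⟨i, hi⟩ := hB2 v (by rintro (h' | h'); exacts [h h', hv h'])
        exact ⟨i.succ, by rw [Fin.cons_succ]; exact hi⟩
    · intro u v hu hv huv
      by_cases h1 : u = v₀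
      · refine ⟨0, ?_, ?_⟩
        · rw [Fin.cons_zero]; exact Or.inl h1
        · rw [Fin.cons_zero]
          by_cases h2 : v = v₀
          · exact Or.inl h2
          · exact Or.inr ⟨by rintro (h' | h'); exacts [h2 h', hv h'], v₀, Or.inl rfl, h1 ▸ huv⟩
      · by_cases h2 : v = v₀
        · refine ⟨0, ?_, ?_⟩
          · rw [Fin.cons_zero]
            exact Or.inr ⟨by rintro (h' | h'); exacts [h1 h', hu h'], v₀, Or.inl rfl,
              (h2 ▸ huv).symm⟩
          · rw [Fin.cons_zero]; exact Or.inl h2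
        · obtain ⟨i, hi1, hi2⟩ := hB3 u v (by rintro (h' | h'); exacts [h1 h', hu h'])
            (by rintro (h' | h'); exacts [h2 h', hv h']) huv
          exact ⟨i.succ, by rw [Fin.cons_succ]; exact hi1, by rw [Fin.cons_succ]; exact hi2⟩
    · intro v i j k hij hjk hi hk
      revert i j k
      refine Fin.cases ?_ (fun i => ?_)
      · refine Fin.cases ?_ (fun j => ?_)
        · intro k _ _ h _; exact h
        · refine Fin.cases ?_ (fun k => ?_)
          · intro _ h; exact absurd h (by simp)
          · intro _ hjk h0 hk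
            rw [Fin.cons_zero] at h0
            rw [Fin.cons_succ] at hk ⊢
            have hvF : v ∈ Frontier G (insert v₀ P) := by
              rcases h0 with rfl | h0
              · exact absurd hk (hv₀B k)
              · exact h0
            obtain ⟨hm, h1⟩ := hB5 v hvF
            exact hB4 v ⟨0, hm⟩ j k (Fin.mk_le_of_le_val (Nat.zero_le _))
              (Fin.succ_le_succ_iff.mp hjk) h1 hk
      · refine Fin.cases ?_ (fun j => ?_)
        · intro k h; exact absurd h (by simp)
        · refine Fin.cases ?_ (fun k => ?_)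
          · intro _ h; exact absurd h (by simp)
          · intro hij hjk hi hk
            rw [Fin.cons_succ] at hi hk ⊢
            exact hB4 v i j k (Fin.succ_le_succ_iff.mp hij) (Fin.succ_le_succ_iff.mp hjk) hi hk
    · intro v hv
      refine ⟨Nat.succ_pos m, ?_⟩
      have : (⟨0, Nat.succ_pos m⟩ : Fin (m + 1)) = 0 := rfl
      rw [this, Fin.cons_zero]
      exact hsub hv
    · refine Fin.cases ?_ (fun i => ?_)
      · rw [Fin.cons_zero, Fin.cons_zero]
        refine ⟨Or.inl rfl, ?_⟩
        rw [Set.insert_sdiff_self_of_notMem hv₀F]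
        exact no_minor ht hG hgood
      · rw [Fin.cons_succ, Fin.cons_succ]
        exact hB6 i

theorem colorable_succ {S : Set V} {x : V} {c : ℕ} (h : (G.induce (S \ {x})).Colorable c) :
    (G.induce S).Colorable (c + 1) := by
  classical
  obtain ⟨φ⟩ := h
  refine ⟨SimpleGraph.Coloring.mk
    (fun v => if hv : v.1 = x then Fin.last c else (φ ⟨v.1, v.2, hv⟩).castSucc) ?_⟩
  intro u v huv
  have hne : u.1 ≠ v.1 := by
    have := huv.ne
    exact fun h => this (Subtype.ext h)
  by_cases hu : u.1 = x
  · have hv : v.1 ≠ x := fun h => hne (hu.trans h.symm)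
    rw [dif_pos hu, dif_neg hv]
    exact (Fin.castSucc_lt_last _).ne'
  · by_cases hv : v.1 = x
    · rw [dif_neg hu, dif_pos hv]
      exact (Fin.castSucc_lt_last _).ne
    · rw [dif_neg hu, dif_neg hv]
      intro h
      have h' := Fin.castSucc_injective _ h
      exact φ.valid (v := ⟨u.1, u.2, hu⟩) (w := ⟨v.1, v.2, hv⟩) (by simpa using huv) h'

end aux

/-- Every finite graph `G` without a `K_{t+1}`-minor has a path-decomposition in which every bag
`B i` contains a vertex `x i` such that the graph induced by `B i \ {x i}` has no `K_t`-minor. In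
particular, if all finite graphs without a `K_t`-minor are `c`-colourable, then every bag of it
induces a `(c + 1)`-colourable graph. -/
theorem result (t : ℕ) (V : Type) [Finite V] (G : SimpleGraph V)
    (hG : ¬ HasCliqueMinor G (t + 1)) :
    ∃ (m : ℕ) (B : Fin m → Set V) (x : Fin m → V), IsPathDecomposition G B ∧
      ∀ i, x i ∈ B i ∧ ¬ HasCliqueMinor (G.induce (B i \ {x i})) t ∧
        ∀ c : ℕ, (∀ (W : Type) [Finite W] (H : SimpleGraph W),
          ¬ HasCliqueMinor H t → H.Colorable c) → (G.induce (B i)).Colorable (c + 1) := by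
  suffices h1 : ∃ (m : ℕ) (B : Fin m → Set V) (x : Fin m → V), IsPathDecomposition G B ∧
      ∀ i, x i ∈ B i ∧ ¬ HasCliqueMinor (G.induce (B i \ {x i})) t by
    obtain ⟨m, B, x, hB, hx⟩ := h1
    exact ⟨m, B, x, hB, fun i => ⟨(hx i).1, (hx i).2, fun c hc =>
      colorable_succ (hc _ _ (hx i).2)⟩⟩
  rcases Nat.eq_zero_or_pos t with rfl | ht
  · have hV : IsEmpty V := by
      rw [isEmpty_iff]
      intro v
      apply hG
      refine ⟨fun _ => {v}, fun i => ?_, fun i j hij => absurd (Fin.ext (by omega)) hij,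
        fun i j hij => absurd (Fin.ext (by omega)) hij⟩
      have : Subsingleton ({v} : Set V) := by infer_instance
      have : Nonempty ({v} : Set V) := ⟨⟨v, rfl⟩⟩
      exact ⟨fun a b => by rw [Subsingleton.elim a b]⟩
    exact ⟨0, Fin.elim0, Fin.elim0, ⟨fun v => isEmptyElim v, fun v => isEmptyElim v,
      fun v => isEmptyElim v⟩, fun i => i.elim0⟩
  · have hgood : Good G ∅ := by
      left
      ext w
      simp [Frontier]
    obtain ⟨m, B, x, -, hB2, hB3, hB4, -, hB6⟩ := main_induction ht hG _ ∅ hgood rfl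
    exact ⟨m, B, x, ⟨fun v => hB2 v (Set.notMem_empty v),
      fun u v huv => hB3 u v (Set.notMem_empty u) (Set.notMem_empty v) huv, hB4⟩, hB6⟩

end Pool.Agent.Results.MP_8d69a1_co.SearchOrder
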